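import Mathlib
import Pool.Agent.K4H10.QM.Quant

/-!
# Extension of the coefficients of a closed family
-/

set_option autoImplicit false
set_option linter.unusedSectionVars false

namespace Pool.Agent.K4H10.QR

open Matrix Module Filter Topology Pool.Agent.K4H54.PL Pool.Agent.K4H10.QZ Pool.Agent.K4H35.QB
open Pool.Agent.K4H10.QM

noncomputable section

variable {k : Type} [Field k] (K : Type) [Field K] [Algebra k K]
  {ι : Type} [Fintype ι] [DecidableEq ι]

/-- The `K`-span of the family. -/
def BC (R : ∀ a c : ℕ, Matrix (Fin c → ι) (Fin a → ι) k → Prop) (a c : ℕ)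
    (F : Matrix (Fin c → ι) (Fin a → ι) K) : Prop :=
  F ∈ Submodule.span K {G | ∃ F₀, R a c F₀ ∧ F₀.map (algebraMap k K) = G}

variable {R : ∀ a c : ℕ, Matrix (Fin c → ι) (Fin a → ι) k → Prop} {q qi : Matrix ι ι k}
  {σ : ι → k} {o v : ι → k} {d : ι → ℕ}

theorem BC.of {a c : ℕ} {F : Matrix (Fin c → ι) (Fin a → ι) k} (h : R a c F) :
    BC K R a c (F.map (algebraMap k K)) := Submodule.subset_span ⟨F, h, rfl⟩

theorem BC.zero (a c : ℕ) : BC K R a c (0 : Matrix (Fin c → ι) (Fin a → ι) K) :=
  Submodule.zero_mem _

theorem ex_add_left {a c a' c' : ℕ} (F F' : Matrix (Fin c → ι) (Fin a → ι) K)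
    (G : Matrix (Fin c' → ι) (Fin a' → ι) K) : ex (F + F') G = ex F G + ex F' G := by
  ext x y
  exact add_mul _ _ _

theorem ex_add_right {a c a' c' : ℕ} (F : Matrix (Fin c → ι) (Fin a → ι) K)
    (G G' : Matrix (Fin c' → ι) (Fin a' → ι) K) : ex F (G + G') = ex F G + ex F G' := by
  ext x y
  exact mul_add _ _ _

theorem ex_smul_left {a c a' c' : ℕ} (r : K) (F : Matrix (Fin c → ι) (Fin a → ι) K)
    (G : Matrix (Fin c' → ι) (Fin a' → ι) K) : ex (r • F) G = r • ex F G := by
  ext x y
  exact mul_assoc _ _ _

theorem ex_smul_right {a c a' c' : ℕ} (r : K) (F : Matrix (Fin c → ι) (Fin a → ι) K)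
    (G : Matrix (Fin c' → ι) (Fin a' → ι) K) : ex F (r • G) = r • ex F G := by
  ext x y
  exact mul_left_comm _ _ _

theorem ex_zero_left {a c a' c' : ℕ} (G : Matrix (Fin c' → ι) (Fin a' → ι) K) :
    ex (0 : Matrix (Fin c → ι) (Fin a → ι) K) G = 0 := by
  ext x y
  exact zero_mul _

theorem ex_zero_right {a c a' c' : ℕ} (F : Matrix (Fin c → ι) (Fin a → ι) K) :
    ex F (0 : Matrix (Fin c' → ι) (Fin a' → ι) K) = 0 := by
  ext x y
  exact mul_zero _

theorem ex_map {a c a' c' : ℕ} (F : Matrix (Fin c → ι) (Fin a → ι) k)
    (G : Matrix (Fin c' → ι) (Fin a' → ι) k) :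
    ex (F.map (algebraMap k K)) (G.map (algebraMap k K)) = (ex F G).map (algebraMap k K) := by
  ext x y
  exact (map_mul (algebraMap k K) _ _).symm

theorem BC.clo (h : Cl R) : Cl (BC K R) where
  add := fun hF hG => Submodule.add_mem _ hF hG
  smul := fun r _ hF => Submodule.smul_mem _ r hF
  comp := by
    intro a b c F G hF hG
    induction hG using Submodule.span_induction with
    | mem G hG =>
      obtain ⟨G₀, hG₀, rfl⟩ := hG
      induction hF using Submodule.span_induction with
      | mem F hF =>
        obtain ⟨F₀, hF₀, rfl⟩ := hF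
        have h1 := BC.of K (h.comp hF₀ hG₀)
        rwa [Matrix.map_mul] at h1
      | zero => rw [Matrix.mul_zero]; exact Submodule.zero_mem _
      | add x y _ _ hx hy => rw [Matrix.mul_add]; exact Submodule.add_mem _ hx hy
      | smul r x _ hx => rw [Matrix.mul_smul]; exact Submodule.smul_mem _ r hx
    | zero => rw [Matrix.zero_mul]; exact Submodule.zero_mem _
    | add x y _ _ hx hy => rw [Matrix.add_mul]; exact Submodule.add_mem _ hx hy
    | smul r x _ hx => rw [Matrix.smul_mul]; exact Submodule.smul_mem _ r hx
  prod := by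
    intro a c a' c' F G hF hG
    induction hG using Submodule.span_induction with
    | mem G hG =>
      obtain ⟨G₀, hG₀, rfl⟩ := hG
      induction hF using Submodule.span_induction with
      | mem F hF =>
        obtain ⟨F₀, hF₀, rfl⟩ := hF
        rw [ex_map]
        exact BC.of K (h.prod hF₀ hG₀)
      | zero => rw [ex_zero_left]; exact Submodule.zero_mem _
      | add x y _ _ hx hy => rw [ex_add_left]; exact Submodule.add_mem _ hx hy
      | smul r x _ hx => rw [ex_smul_left]; exact Submodule.smul_mem _ r hx
    | zero => rw [ex_zero_right]; exact Submodule.zero_mem _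
    | add x y _ _ hx hy => rw [ex_add_right]; exact Submodule.add_mem _ hx hy
    | smul r x _ hx => rw [ex_smul_right]; exact Submodule.smul_mem _ r hx

/-- The coordinates of a class with coefficients in `K` are classes. -/
theorem BC.coord (h : Cl R) (h0 : ∀ a c, R a c 0) {a c : ℕ}
    {F : Matrix (Fin c → ι) (Fin a → ι) K} (hF : BC K R a c F) :
    ∀ t : K →ₗ[k] k, R a c (F.map t) := by
  induction hF using Submodule.span_induction with
  | mem F hF =>
    obtain ⟨F₀, hF₀, rfl⟩ := hF
    intro t
    have h1 : (F₀.map (algebraMap k K)).map t = t 1 • F₀ := by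
      ext x y
      change t (algebraMap k K (F₀ x y)) = t 1 * F₀ x y
      rw [Algebra.algebraMap_eq_smul_one, map_smul, smul_eq_mul, mul_comm]
    rw [h1]
    exact h.smul _ hF₀
  | zero =>
    intro t
    have h1 : (0 : Matrix (Fin c → ι) (Fin a → ι) K).map t = 0 := by
      ext x y
      exact map_zero t
    rw [h1]
    exact h0 a c
  | add x y _ _ hx hy =>
    intro t
    have h1 : (x + y).map t = x.map t + y.map t := by
      ext u w
      exact map_add t _ _
    rw [h1]
    exact h.add (hx t) (hy t)
  | smul r x _ hx =>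
    intro t
    have h1 : (r • x).map t = x.map (t ∘ₗ LinearMap.mulLeft k r) := by
      ext u w
      rfl
    rw [h1]
    exact hx _

theorem pl_bc (h : Pl R q qi o v) : Pl (BC K R) (q.map (algebraMap k K))
    (qi.map (algebraMap k K)) (fun i => algebraMap k K (o i)) (fun i => algebraMap k K (v i)) where
  clo := BC.clo K h.clo
  h0 := by
    have h1 := BC.of K h.h0
    rwa [Matrix.map_one _ (map_zero _) (map_one _)] at h1
  h1 := by
    have h1 := BC.of K h.h1
    rwa [Matrix.map_one _ (map_zero _) (map_one _)] at h1
  form := BC.of K h.form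
  unit := BC.of K h.unit
  pt := BC.of K h.pt
  inv := by
    rw [← Matrix.map_mul, h.inv, Matrix.map_one _ (map_zero _) (map_one _)]
  ne := by
    have h1 : (fun i => algebraMap k K (o i)) ⬝ᵥ q.map (algebraMap k K) *ᵥ
        (fun i => algebraMap k K (v i)) = algebraMap k K (o ⬝ᵥ q *ᵥ v) := by
      simp only [dotProduct, mulVec, map_sum, map_mul, Matrix.map_apply]
    rw [h1]
    exact (map_ne_zero _).2 h.ne

theorem pair_bc (h : Pair R R q qi o v d) : Pair (BC K R) (BC K R) (q.map (algebraMap k K))
    (qi.map (algebraMap k K)) (fun i => algebraMap k K (o i)) (fun i => algebraMap k K (v i)) d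
    where
  pl := pl_bc K h.pl
  clo := BC.clo K h.clo
  zero := fun a c => Submodule.zero_mem _
  le := id
  inverse := BC.of K h.inverse
  symm := by
    have h1 := BC.of K h.symm
    have h2 : (ssw k d).map (algebraMap k K) = ssw K d := by
      ext x y
      change algebraMap k K (if x 0 = y 1 ∧ x 1 = y 0 then _ else 0) = if _ then _ else 0
      split_ifs
      · rw [map_pow, map_neg, map_one]
      · exact map_zero _
    rwa [h2] at h1

theorem rig_bc (h : Rig R q qi σ) : Rig (BC K R) (q.map (algebraMap k K))
    (qi.map (algebraMap k K)) (fun i => algebraMap k K (σ i)) where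
  clo := BC.clo K h.clo
  zero := fun a c => Submodule.zero_mem _
  idn := fun n => by
    have h1 := BC.of K (h.idn n)
    rwa [Matrix.map_one _ (map_zero _) (map_one _)] at h1
  form := BC.of K h.form
  inverse := BC.of K h.inverse
  inv := by
    rw [← Matrix.map_mul, h.inv, Matrix.map_one _ (map_zero _) (map_one _)]
  sgn := fun i => by
    rcases h.sgn i with h1 | h1 <;> rw [h1]
    · exact Or.inl (map_one _)
    · exact Or.inr (by rw [map_neg, map_one])
  sym := fun i j => by
    rw [Matrix.map_apply, Matrix.map_apply, h.sym, map_mul]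
  par := by
    intro m x hx V hV
    obtain ⟨t, ht⟩ : ∃ t : K →ₗ[k] k, t (x V) ≠ 0 := by
      by_contra hcon
      push Not at hcon
      exact hV ((Module.forall_dual_apply_eq_zero_iff k (x V)).1 hcon)
    have h1 := BC.coord K h.clo h.zero hx t
    have h2 := h.par m (fun u => t (x u)) h1 V ht
    rw [← map_prod, h2, map_one]

theorem nondeg_bc (h : Cl R) (h0 : ∀ a c, R a c 0) (hnd : Nondeg R) : Nondeg (BC K R) := by
  intro m x hx hφ
  have h1 : ∀ t : K →ₗ[k] k, (fun u => t (x u)) = (0 : T k ι m) := by
    intro t
    refine hnd m _ (BC.coord K h h0 hx t) fun φ hφ' => ?_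
    have h2 := hφ (fun u => algebraMap k K (φ u)) (BC.of K hφ')
    have h3 : φ ⬝ᵥ (fun u => t (x u)) = t ((fun u => algebraMap k K (φ u)) ⬝ᵥ x) := by
      unfold dotProduct
      rw [map_sum]
      refine Finset.sum_congr rfl fun u _ => ?_
      rw [← Algebra.smul_def, map_smul, smul_eq_mul]
    rw [h3, h2, map_zero]
  funext u
  refine (Module.forall_dual_apply_eq_zero_iff k (x u)).1 fun t => ?_
  exact congrFun (h1 t) u

theorem finrank_bc (h : Cl R) (h0 : ∀ a c, R a c 0) (m : ℕ) :
    finrank K (BB (BC K R) (BC.clo K h) (BC.zero K) m) = finrank k (BB R h h0 m) := by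
  let b := finBasis k (BB R h h0 m)
  let w : Fin (finrank k (BB R h h0 m)) → T K ι m := fun i u => algebraMap k K ((b i : T k ι m) u)
  have hli : LinearIndependent K w := by
    rw [Fintype.linearIndependent_iff]
    intro g hg i
    refine (Module.forall_dual_apply_eq_zero_iff k (g i)).1 fun t => ?_
    have h1 : ∑ i, t (g i) • (b i : T k ι m) = 0 := by
      funext u
      have h2 := congrFun hg u
      rw [Finset.sum_apply, Pi.zero_apply]
      rw [Finset.sum_apply, Pi.zero_apply] at h2
      have h3 := congrArg t h2
      rw [map_sum, map_zero] at h3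
      rw [← h3]
      refine Finset.sum_congr rfl fun i _ => ?_
      change t (g i) * (b i : T k ι m) u = t (g i * algebraMap k K ((b i : T k ι m) u))
      rw [mul_comm (g i), ← Algebra.smul_def, map_smul, smul_eq_mul, mul_comm]
    exact Fintype.linearIndependent_iff.1 b.linearIndependent (fun i => t (g i))
      (Subtype.ext (by
        rw [Submodule.coe_sum]
        exact h1)) i
  have hsp : BB (BC K R) (BC.clo K h) (BC.zero K) m = Submodule.span K (Set.range w) := by
    apply le_antisymm
    · intro x hx
      have hgen : ∀ F : Matrix (Fin m → ι) (Fin 0 → ι) K, BC K R 0 m F →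
          (fun u => F u Fin.elim0) ∈ Submodule.span K (Set.range w) := by
        intro F hF
        induction hF using Submodule.span_induction with
        | mem F hF =>
          obtain ⟨F₀, hF₀, rfl⟩ := hF
          obtain ⟨x₀, rfl⟩ := exists_cl F₀
          have h1 := congrArg Subtype.val (b.sum_repr ⟨x₀, hF₀⟩)
          rw [Submodule.coe_sum] at h1
          have h2 : (fun u => (cl x₀).map (algebraMap k K) u Fin.elim0) =
              ∑ i, algebraMap k K (b.repr ⟨x₀, hF₀⟩ i) • w i := by
            funext u
            have h3 := congrFun h1 u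
            rw [Finset.sum_apply] at h3 ⊢
            change algebraMap k K (x₀ u) = _
            rw [show x₀ u = _ from h3.symm, map_sum]
            refine Finset.sum_congr rfl fun i _ => ?_
            exact map_mul (algebraMap k K) _ _
          rw [h2]
          exact Submodule.sum_mem _ fun i _ => Submodule.smul_mem _ _
            (Submodule.subset_span ⟨i, rfl⟩)
        | zero => exact Submodule.zero_mem _
        | add x y _ _ hx hy => exact Submodule.add_mem _ hx hy
        | smul r x _ hx => exact Submodule.smul_mem _ r hx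
      exact hgen _ hx
    · rw [Submodule.span_le]
      rintro _ ⟨i, rfl⟩
      exact BC.of K (b i).2
  rw [hsp, finrank_span_eq_card hli, Fintype.card_fin]

end

end Pool.Agent.K4H10.QR
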