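import Mathlib

/-!
# Chow groups and correspondences of the powers of a variety

`X` is a smooth projective variety over a number field, `H(X)` its singular cohomology with rational
coefficients, in a homogeneous basis `ι`; the cohomology of `X ^ m` has the basis `Fin m → ι` (formula
of Künneth). (The vocabulary is due to helper67.)
-/

set_option autoImplicit false

namespace Pool.Agent.K4H10.QR

open Matrix

noncomputable section

universe u

/-- The data of the Chow groups of the powers of a smooth projective variety `X` with rational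
coefficients, of the composition of correspondences, and of the classes of cycles. -/
structure ChowPowers where
  /-- a homogeneous basis of the cohomology `H(X)` -/
  ι : Type
  fin : Fintype ι
  dec : DecidableEq ι
  /-- the degrees of the elements of the basis -/
  deg : ι → ℕ
  /-- the matrix of the intersection form `(x, y) ↦ ∫ x ∪ y` -/
  q : Matrix ι ι ℚ
  /-- the unit class -/
  one : ι → ℚ
  /-- the class of a point -/
  pt : ι → ℚ
  /-- `Corr a c` is the space of the correspondences from `X ^ a` to `X ^ c`, the Chow group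
  `CH(X ^ a × X ^ c)` (of all codimensions) with rational coefficients -/
  Corr : ℕ → ℕ → Type u
  addCommGroup : ∀ a c, AddCommGroup (Corr a c)
  module : ∀ a c, Module ℚ (Corr a c)
  /-- the composition of correspondences -/
  comp : ∀ {a b c : ℕ}, Corr b c → Corr a b → Corr a c
  /-- the diagonal -/
  diag : ∀ a : ℕ, Corr a a
  /-- the linear map `H(X ^ a) → H(X ^ c)` induced by the class of a correspondence -/
  cl : ∀ {a c : ℕ}, Corr a c → Matrix (Fin c → ι) (Fin a → ι) ℚ

attribute [instance] ChowPowers.fin ChowPowers.dec ChowPowers.addCommGroup ChowPowers.module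

namespace ChowPowers

variable (X : ChowPowers.{u})

/-- The map `F : H(X ^ a) → H(X ^ c)` is induced by the class of a cycle. -/
def IsAlg (a c : ℕ) (F : Matrix (Fin c → X.ι) (Fin a → X.ι) ℚ) : Prop :=
  ∃ x : X.Corr a c, X.cl x = F

/-- The exterior product `H(X ^ (a + a')) → H(X ^ (c + c'))` of the maps `F : H(X ^ a) → H(X ^ c)`
and `G : H(X ^ a') → H(X ^ c')`. -/
def ext {a c a' c' : ℕ} (F : Matrix (Fin c → X.ι) (Fin a → X.ι) ℚ)
    (G : Matrix (Fin c' → X.ι) (Fin a' → X.ι) ℚ) :
    Matrix (Fin (c + c') → X.ι) (Fin (a + a') → X.ι) ℚ :=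
  Matrix.of fun x y => F (fun i => x (Fin.castAdd c' i)) (fun i => y (Fin.castAdd a' i)) *
    G (fun i => x (Fin.natAdd c i)) (fun i => y (Fin.natAdd a i))

/-- The formal properties of the classes of correspondences. -/
structure IsCorr : Prop where
  cl_add : ∀ {a c : ℕ} (x y : X.Corr a c), X.cl (x + y) = X.cl x + X.cl y
  cl_smul : ∀ {a c : ℕ} (r : ℚ) (x : X.Corr a c), X.cl (r • x) = r • X.cl x
  cl_comp : ∀ {a b c : ℕ} (x : X.Corr b c) (y : X.Corr a b), X.cl (X.comp x y) = X.cl x * X.cl y
  cl_diag : ∀ a : ℕ, X.cl (X.diag a) = 1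
  /-- exterior products of algebraic classes are algebraic -/
  exterior : ∀ {a c a' c' : ℕ} (x : X.Corr a c) (y : X.Corr a' c'),
    X.IsAlg (a + a') (c + c') (X.ext (X.cl x) (X.cl y))

/-- The standard algebraic classes, Poincaré duality and parity. -/
structure IsStandard : Prop where
  /-- the unit class is algebraic -/
  unit : X.IsAlg 0 1 (Matrix.of fun x _ => X.one (x 0))
  /-- the class of a point is algebraic -/
  point : X.IsAlg 0 1 (Matrix.of fun x _ => X.pt (x 0))
  /-- the intersection form `H(X × X) → ℚ` is given by the diagonal -/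
  form : X.IsAlg 2 0 (Matrix.of fun _ y => X.q (y 0) (y 1))
  /-- the class of the diagonal in `H(X × X)` -/
  diagonalClass : X.IsAlg 0 2 (Matrix.of fun x _ => X.q⁻¹ (x 0) (x 1))
  /-- the graph of the symmetry of `X × X`, which acts on `H(X × X)` by
  `x × y ↦ (-1) ^ (deg x * deg y) y × x` -/
  symmetry : X.IsAlg 2 2 (Matrix.of fun x y =>
    if x 0 = y 1 ∧ x 1 = y 0 then (-1) ^ (X.deg (x 0) * X.deg (x 1)) else 0)
  /-- Poincaré duality -/
  det_ne : X.q.det ≠ 0
  symm : ∀ i j, X.q j i = (-1) ^ X.deg i * X.q i j
  pairing : X.one ⬝ᵥ X.q *ᵥ X.pt ≠ 0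
  /-- the classes of cycles on `X ^ m` have even degrees -/
  even : ∀ (m : ℕ) (z : X.Corr 0 m) (x : Fin m → X.ι) (y : Fin 0 → X.ι), X.cl z x y ≠ 0 →
    Even (∑ i, X.deg (x i))

/-- Numerical and homological equivalence agree on the powers of `X`: a cycle `z` on `X ^ m` is
homologically trivial if all its intersection numbers `y ∘ z` with the cycles `y` on `X ^ m` are
zero. -/
def NumIsHom : Prop :=
  ∀ (m : ℕ) (z : X.Corr 0 m), (∀ y : X.Corr m 0, X.cl (X.comp y z) = 0) → X.cl z = 0

/-- The dimension of the space of the classes of cycles in the cohomology of `X ^ m`. -/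
def classDim (m : ℕ) : ℕ :=
  Module.finrank ℚ (Submodule.span ℚ (Set.range fun z : X.Corr 0 m => X.cl z))

end ChowPowers

end

end Pool.Agent.K4H10.QR
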