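import Mathlib
import Pool.Agent.K4H10.QR.Chow
import Pool.Agent.K4H10.QM.Quant

/-!
# The closed family of the algebraic classes
-/

set_option autoImplicit false
set_option linter.unusedSectionVars false

namespace Pool.Agent.K4H10.QR

open Matrix Module Filter Topology Pool.Agent.K4H54.PL Pool.Agent.K4H10.QM

noncomputable section

universe u

variable {X : ChowPowers.{u}}

/-- The class as a linear map. -/
def classL (hX : X.IsCorr) (a c : ℕ) : X.Corr a c →ₗ[ℚ] Matrix (Fin c → X.ι) (Fin a → X.ι) ℚ where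
  toFun := X.cl
  map_add' := hX.cl_add
  map_smul' := hX.cl_smul

theorem cl_zero (hX : X.IsCorr) {a c : ℕ} : X.cl (0 : X.Corr a c) = 0 := (classL hX a c).map_zero

theorem clo (hX : X.IsCorr) : Cl X.IsAlg where
  add := by
    rintro a c _ _ ⟨x, rfl⟩ ⟨y, rfl⟩
    exact ⟨x + y, hX.cl_add _ _⟩
  smul := by
    rintro a c r _ ⟨x, rfl⟩
    exact ⟨r • x, hX.cl_smul _ _⟩
  comp := by
    rintro a b c _ _ ⟨x, rfl⟩ ⟨y, rfl⟩
    exact ⟨X.comp y x, hX.cl_comp y x⟩
  prod := by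
    rintro a c a' c' _ _ ⟨x, rfl⟩ ⟨y, rfl⟩
    exact hX.exterior x y

theorem alg_zero (hX : X.IsCorr) (a c : ℕ) : X.IsAlg a c 0 := ⟨0, cl_zero hX⟩

theorem planar (hX : X.IsCorr) (hs : X.IsStandard) : Pl X.IsAlg X.q X.q⁻¹ X.one X.pt where
  clo := clo hX
  h0 := ⟨X.diag 0, hX.cl_diag 0⟩
  h1 := ⟨X.diag 1, hX.cl_diag 1⟩
  form := hs.form
  unit := hs.unit
  pt := hs.point
  inv := Matrix.mul_nonsing_inv _ (isUnit_iff_ne_zero.2 hs.det_ne)
  ne := hs.pairing

theorem pair (hX : X.IsCorr) (hs : X.IsStandard) :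
    Pair X.IsAlg X.IsAlg X.q X.q⁻¹ X.one X.pt X.deg where
  pl := planar hX hs
  clo := clo hX
  zero := alg_zero hX
  le := id
  inverse := hs.diagonalClass
  symm := hs.symmetry

theorem rig (hX : X.IsCorr) (hs : X.IsStandard) :
    K4H10.QZ.Rig X.IsAlg X.q X.q⁻¹ (fun i => (-1 : ℚ) ^ X.deg i) where
  clo := clo hX
  zero := alg_zero hX
  idn := (planar hX hs).idn
  form := hs.form
  inverse := hs.diagonalClass
  inv := (planar hX hs).inv
  sgn := fun i => neg_one_pow_eq_or ℚ (X.deg i)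
  sym := hs.symm
  par := by
    rintro m x ⟨z, hz⟩ V hV
    rw [Finset.prod_pow_eq_pow_sum]
    refine Even.neg_one_pow (hs.even m z V Fin.elim0 ?_)
    rw [hz]
    exact hV

theorem nondeg (hX : X.IsCorr) (hN : X.NumIsHom) : K4H10.QZ.Nondeg X.IsAlg := by
  rintro m x ⟨z, hz⟩ h
  have h1 : X.cl z = 0 := by
    refine hN m z fun y => ?_
    obtain ⟨φ, hφ⟩ := exists_ro (X.cl y)
    rw [hX.cl_comp, hφ, hz]
    ext u v
    rw [ro_mul_cl, h φ ⟨y, hφ⟩]
    rfl
  funext u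
  have h2 : X.cl z u Fin.elim0 = 0 := by rw [h1]; rfl
  rw [hz] at h2
  exact h2

theorem classDim_eq (hX : X.IsCorr) (m : ℕ) :
    X.classDim m = finrank ℚ (BB X.IsAlg (clo hX) (alg_zero hX) m) := by
  have h1 : Submodule.span ℚ (Set.range fun z : X.Corr 0 m => X.cl z) =
      (BB X.IsAlg (clo hX) (alg_zero hX) m).map (Pool.Agent.K4H54.PL.clL ℚ X.ι m) := by
    apply le_antisymm
    · rw [Submodule.span_le]
      rintro _ ⟨z, rfl⟩
      obtain ⟨x, hx⟩ := exists_cl (X.cl z)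
      exact ⟨x, ⟨z, hx⟩, hx.symm⟩
    · rintro F ⟨x, ⟨z, hz⟩, rfl⟩
      exact Submodule.subset_span ⟨z, hz⟩
  unfold ChowPowers.classDim
  rw [h1]
  exact (LinearEquiv.finrank_eq (Submodule.equivMapOfInjective _ (Pool.Agent.K4H54.PL.clL_injective m) _)).symm

theorem classDim_pos (hX : X.IsCorr) (hs : X.IsStandard) (m : ℕ) : 0 < X.classDim m := by
  rw [classDim_eq hX]
  exact K4H35.QB.pos_B (pair hX hs) m

end

end Pool.Agent.K4H10.QR
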