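import Mathlib
import Pool.Agent.K4H10.QR.Base

/-!
# The quantization law for modules on which the correspondences act through their classes
-/

set_option autoImplicit false
set_option linter.unusedSectionVars false

namespace Pool.Agent.K4H10.QR

open Matrix Module Filter Topology Pool.Agent.K4H54.PL Pool.Agent.K4H10.QZ Pool.Agent.K4H35.QB
open Pool.Agent.K4H10.QM

noncomputable section

universe u w

variable {k : Type} [Field k] {K : Type} [Field K] [Algebra k K]
  {ι : Type} [Fintype ι] [DecidableEq ι]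
  {R : ∀ a c : ℕ, Matrix (Fin c → ι) (Fin a → ι) k → Prop} {q qi : Matrix ι ι k}
  {σ : ι → k} {o v : ι → k} {d : ι → ℕ}

section ext

variable {α β : Type} [Fintype α] [Fintype β] [DecidableEq α] [DecidableEq β]
  {V W : Type w} [AddCommGroup V] [AddCommGroup W] [Module k V] [Module k W] [Module K V]
  [Module K W] [IsScalarTower k K V] [IsScalarTower k K W]

/-- The `K`-linear extension of a linear map on matrices. -/
def gK (g : Matrix α β k →ₗ[k] (V →ₗ[K] W)) : Matrix α β K →ₗ[K] (V →ₗ[K] W) where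
  toFun F := ∑ u, ∑ w, F u w • g (Matrix.single u w 1)
  map_add' F G := by
    simp only [Matrix.add_apply, add_smul, Finset.sum_add_distrib]
  map_smul' r F := by
    simp only [Matrix.smul_apply, smul_eq_mul, mul_smul, RingHom.id_apply, Finset.smul_sum]

theorem gK_map (g : Matrix α β k →ₗ[k] (V →ₗ[K] W)) (F : Matrix α β k) :
    gK g (F.map (algebraMap k K)) = g F := by
  conv_rhs => rw [Matrix.matrix_eq_sum_single F]
  rw [map_sum]
  refine Finset.sum_congr rfl fun u _ => ?_
  rw [map_sum]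
  refine Finset.sum_congr rfl fun w _ => ?_
  rw [Matrix.map_apply]
  have h1 : (Matrix.single u w (F u w) : Matrix α β k) = F u w • Matrix.single u w 1 := by
    rw [Matrix.smul_single, smul_eq_mul, mul_one]
  rw [h1, map_smul, algebraMap_smul]

end ext

section main

variable {C : ℕ → ℕ → Type u} [∀ a c, AddCommGroup (C a c)] [∀ a c, Module k (C a c)]
  {H : ℕ → Type w} [∀ m, AddCommGroup (H m)] [∀ m, Module k (H m)] [∀ m, Module K (H m)]
  [∀ m, IsScalarTower k K (H m)]

theorem exists_g {a c : ℕ} (cl' : C a c →ₗ[k] Matrix (Fin c → ι) (Fin a → ι) k)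
    (ψ : C a c →ₗ[k] (H a →ₗ[K] H c)) (h : ∀ x, cl' x = 0 → ψ x = 0) :
    ∃ g : Matrix (Fin c → ι) (Fin a → ι) k →ₗ[k] (H a →ₗ[K] H c), ∀ x, g (cl' x) = ψ x := by
  have hker : LinearMap.ker cl' ≤ LinearMap.ker ψ := fun x hx => h x hx
  obtain ⟨g, hg⟩ := LinearMap.exists_extend
    (((LinearMap.ker cl').liftQ ψ hker) ∘ₗ cl'.quotKerEquivRange.symm.toLinearMap)
  refine ⟨g, fun x => ?_⟩
  have h1 := LinearMap.congr_fun hg ⟨cl' x, x, rfl⟩
  change g (cl' x) = _ at h1
  rw [h1]
  change (LinearMap.ker cl').liftQ ψ hker (cl'.quotKerEquivRange.symm ⟨cl' x, x, rfl⟩) = _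
  have h2 : cl'.quotKerEquivRange.symm ⟨cl' x, x, rfl⟩ = (LinearMap.ker cl').mkQ x := by
    rw [LinearEquiv.symm_apply_eq]
    rfl
  rw [h2]
  exact Submodule.liftQ_apply _ _ _

/-- **The quantization law for modules with coefficients in an extension, on which the
correspondences act through their classes.** -/
theorem quant_coh [CharZero k] [CharZero K] (h : Pair R R q qi o v d) (hr : Rig R q qi σ)
    (hnd : Nondeg R)
    (cl' : ∀ {a c : ℕ}, C a c →ₗ[k] Matrix (Fin c → ι) (Fin a → ι) k)
    (comp : ∀ {a b c : ℕ}, C b c → C a b → C a c) (one : ∀ a : ℕ, C a a)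
    (surj : ∀ {a c : ℕ} (F : Matrix (Fin c → ι) (Fin a → ι) k), R a c F → ∃ x : C a c, cl' x = F)
    (cl_comp : ∀ {a b c : ℕ} (x : C b c) (y : C a b), cl' (comp x y) = cl' x * cl' y)
    (cl_one : ∀ a : ℕ, cl' (one a) = 1)
    (ψ : ∀ {a c : ℕ}, C a c →ₗ[k] (H a →ₗ[K] H c))
    (ψ_comp : ∀ {a b c : ℕ} (x : C b c) (y : C a b), ψ (comp x y) = ψ x ∘ₗ ψ y)
    (ψ_one : ∀ a : ℕ, ψ (one a) = LinearMap.id)
    (hz : ∀ {a c : ℕ} (x : C a c), cl' x = 0 → ψ x = 0) :
    (∀ s : ℕ, ∀ᶠ m in atTop, ((s * finrank k (BB R h.pl.clo h.pl.zero m) : ℕ) : Cardinal) ≤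
        Module.rank K (H m)) ∨
      ((∀ m, FiniteDimensional K (H m)) ∧ ∃ s : ℕ,
        Tendsto (fun m => (finrank K (H m) : ℝ) / finrank k (BB R h.pl.clo h.pl.zero m))
          atTop (𝓝 s) ∧
        (s = 0 → ∀ m, Subsingleton (H m))) := by
  have hex : ∀ a c, ∃ g : Matrix (Fin c → ι) (Fin a → ι) k →ₗ[k] (H a →ₗ[K] H c),
      ∀ x : C a c, g (cl' x) = ψ x := fun a c => exists_g cl' ψ fun x hx => hz x hx
  choose g hg using hex
  -- the composition
  have key : ∀ {a b c : ℕ} (F : Matrix (Fin c → ι) (Fin b → ι) K)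
      (G : Matrix (Fin b → ι) (Fin a → ι) K), BC K R b c F → BC K R a b G →
      gK (g a c) (F * G) = gK (g b c) F ∘ₗ gK (g a b) G := by
    intro a b c F G hF hG
    induction hF using Submodule.span_induction with
    | mem F hF =>
      obtain ⟨F₀, hF₀, rfl⟩ := hF
      obtain ⟨x, rfl⟩ := surj F₀ hF₀
      induction hG using Submodule.span_induction with
      | mem G hG =>
        obtain ⟨G₀, hG₀, rfl⟩ := hG
        obtain ⟨y, rfl⟩ := surj G₀ hG₀
        rw [← Matrix.map_mul, gK_map, gK_map, gK_map, ← cl_comp, hg, hg, hg, ψ_comp]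
      | zero => rw [Matrix.mul_zero, map_zero, map_zero, LinearMap.comp_zero]
      | add x y _ _ hx hy => rw [Matrix.mul_add, map_add, map_add, LinearMap.comp_add, hx, hy]
      | smul r x _ hx => rw [Matrix.mul_smul, map_smul, map_smul, LinearMap.comp_smul, hx]
    | zero => rw [Matrix.zero_mul, map_zero, map_zero, LinearMap.zero_comp]
    | add x y _ _ hx hy => rw [Matrix.add_mul, map_add, map_add, LinearMap.add_comp, hx, hy]
    | smul r x _ hx => rw [Matrix.smul_mul, map_smul, map_smul, LinearMap.smul_comp, hx]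
  have h' := pair_bc K h
  have hr' := rig_bc K hr
  have hnd' := nondeg_bc K h.pl.clo h.pl.zero hnd
  let A : Acts (BC K R) (fun a c => VV (BC K R) (BC.clo K h.pl.clo) (BC.zero K) a c) H :=
    { cl := fun {a c} => (VV (BC K R) (BC.clo K h.pl.clo) (BC.zero K) a c).subtype
      comp := fun {a b c} x y => ⟨x.1 * y.1, (BC.clo K h.pl.clo).comp y.2 x.2⟩
      one := fun a => ⟨1, hr'.idn a⟩
      act := fun {a c} => gK (g a c) ∘ₗ (VV (BC K R) (BC.clo K h.pl.clo) (BC.zero K) a c).subtype
      mem := fun x => x.2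
      surj := fun F hF => ⟨⟨F, hF⟩, rfl⟩
      cl_comp := fun x y => rfl
      cl_one := fun a => rfl
      act_comp := fun {a b c} x y z => by
        have h1 := key x.1 y.1 x.2 y.2
        exact LinearMap.congr_fun h1 z
      act_one := fun a z => by
        have h1 : gK (g a a) (1 : Matrix (Fin a → ι) (Fin a → ι) K) = LinearMap.id := by
          have h2 : (1 : Matrix (Fin a → ι) (Fin a → ι) K) =
              (1 : Matrix (Fin a → ι) (Fin a → ι) k).map (algebraMap k K) :=
            (Matrix.map_one _ (map_zero _) (map_one _)).symm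
          rw [h2, gK_map, ← cl_one, hg, ψ_one]
        exact LinearMap.congr_fun h1 z
      nil := fun a x hx z => by
        refine ⟨1, ?_⟩
        have h1 : x = 0 := Subtype.ext hx
        rw [h1, map_zero]
        rfl }
  have h1 := quant_mod h' hr' hnd' A (F := fun m => ⊤) (fun _ _ _ => trivial)
  simp only [finrank_bc K h.pl.clo h.pl.zero] at h1
  rcases h1 with h1 | ⟨h1, s, h2, h3⟩
  · left
    intro s
    filter_upwards [h1 s] with m hm
    rwa [rank_top] at hm
  · right
    refine ⟨fun m => ?_, s, ?_, fun hs m => ?_⟩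
    · have := h1 m
      exact Module.Finite.equiv (Submodule.topEquiv : (⊤ : Submodule K (H m)) ≃ₗ[K] H m)
    · simpa only [finrank_top] using h2
    · have h4 := h3 hs m
      exact ⟨fun x y => by
        have hx : x ∈ (⊤ : Submodule K (H m)) := trivial
        have hy : y ∈ (⊤ : Submodule K (H m)) := trivial
        rw [h4, Submodule.mem_bot] at hx hy
        rw [hx, hy]⟩

end main

end

end Pool.Agent.K4H10.QR
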