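import Mathlib
import Pool.Agent.K4H10.QR.Chow

/-!
# Regulators of the varieties `X ^ m × U`

`X` is a smooth projective variety and `U` a smooth variety over a number field, `n` an integer. All
bidegrees `(i, j)` with `2 j - i = n` are considered together: the motivic cohomology
`⨁_j H_M^(2j-n)(X ^ m × U, ℚ(j))` (the rational `K`-group `K_n(X ^ m × U)`) and the absolute Hodge
cohomology `⨁_j H_H^(2j-n)(X ^ m × U, ℚ(j))`.
-/

set_option autoImplicit false

namespace Pool.Agent.K4H10.QR

open Matrix Module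

noncomputable section

universe u w

/-- The data of the regulators of the varieties `X ^ m × U`, and of the actions of the correspondences
between the powers of `X`. -/
structure Regulators (X : ChowPowers.{u}) where
  /-- the motivic cohomology `⨁_j H_M^(2j-n)(X ^ m × U, ℚ(j))` -/
  M : ℕ → Type w
  /-- the absolute Hodge cohomology `⨁_j H_H^(2j-n)(X ^ m × U, ℚ(j))` -/
  A : ℕ → Type w
  /-- the Hodge classes `⨁_j Hg^(2j-n,j)(X ^ m × U)` -/
  Hg : ℕ → Type w
  addM : ∀ m, AddCommGroup (M m)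
  addA : ∀ m, AddCommGroup (A m)
  addHg : ∀ m, AddCommGroup (Hg m)
  modM : ∀ m, Module ℚ (M m)
  modA : ∀ m, Module ℚ (A m)
  modHg : ∀ m, Module ℚ (Hg m)
  /-- the dimension of `W(m) = ⨁_j W_2j H^(2j-n-1)(X ^ m × U, ℚ(j))`; in a basis of this rational
  space `W(m) ⊗ ℂ` is the space of the functions `Fin (N m) → ℂ` -/
  N : ℕ → ℕ
  /-- the subspace `⨁_j (F^j ∩ W_2j)` of `W(m) ⊗ ℂ` -/
  Fil : ∀ m, Submodule ℂ (Fin (N m) → ℂ)
  /-- the map from `W(m) ⊗ ℂ` onto the Jacobian part `J(m) = W(m) ⊗ ℂ / (W(m) + F)` of the absolute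
  Hodge cohomology -/
  jac : ∀ m, (Fin (N m) → ℂ) →ₗ[ℚ] A m
  /-- the projection of the absolute Hodge cohomology to the Hodge classes -/
  pr : ∀ m, A m →ₗ[ℚ] Hg m
  /-- the regulator -/
  reg : ∀ m, M m →ₗ[ℚ] A m
  /-- the actions of the correspondences from `X ^ a` to `X ^ c` -/
  actM : ∀ {a c : ℕ}, X.Corr a c →ₗ[ℚ] M a →ₗ[ℚ] M c
  actA : ∀ {a c : ℕ}, X.Corr a c →ₗ[ℚ] A a →ₗ[ℚ] A c
  actHg : ∀ {a c : ℕ}, X.Corr a c →ₗ[ℚ] Hg a →ₗ[ℚ] Hg c
  /-- the action on the cohomology, a rational matrix -/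
  actW : ∀ {a c : ℕ}, X.Corr a c →ₗ[ℚ] Matrix (Fin (N c)) (Fin (N a)) ℚ

attribute [instance] Regulators.addM Regulators.addA Regulators.addHg Regulators.modM
  Regulators.modA Regulators.modHg

namespace Regulators

variable {X : ChowPowers.{u}} (U : Regulators.{u, w} X)

/-- The map from `W(m) ⊗ ℂ` to the absolute Hodge cohomology. -/
def j {m : ℕ} (v : Fin (U.N m) → ℂ) : U.A m := U.jac m v

/-- The Hodge class of an element of the absolute Hodge cohomology. -/
def p {m : ℕ} (a : U.A m) : U.Hg m := U.pr m a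

/-- The regulator of an element of the motivic cohomology. -/
def r {m : ℕ} (z : U.M m) : U.A m := U.reg m z

/-- The action on the motivic cohomology. -/
def onM {a c : ℕ} (x : X.Corr a c) (z : U.M a) : U.M c := U.actM x z

/-- The action on the absolute Hodge cohomology. -/
def onA {a c : ℕ} (x : X.Corr a c) (z : U.A a) : U.A c := U.actA x z

/-- The action on the Hodge classes. -/
def onHg {a c : ℕ} (x : X.Corr a c) (z : U.Hg a) : U.Hg c := U.actHg x z

/-- The matrix of the action on the rational cohomology. -/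
def mat {a c : ℕ} (x : X.Corr a c) : Matrix (Fin (U.N c)) (Fin (U.N a)) ℚ := U.actW x

/-- The action on `W(a) ⊗ ℂ`. -/
def onW {a c : ℕ} (x : X.Corr a c) (v : Fin (U.N a) → ℂ) : Fin (U.N c) → ℂ :=
  (U.mat x).map (algebraMap ℚ ℂ) *ᵥ v

/-- The exact sequence `W(m) + F → W(m) ⊗ ℂ → H_H → Hg → 0`. -/
structure IsExact : Prop where
  /-- the kernel of `W(m) ⊗ ℂ → H_H` is `W(m) + F` -/
  ker_jac : ∀ m (v : Fin (U.N m) → ℂ), U.j v = 0 ↔ ∃ (w : Fin (U.N m) → ℚ)
    (f : Fin (U.N m) → ℂ), f ∈ U.Fil m ∧ v = (fun i => (w i : ℂ)) + f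
  /-- the kernel of the projection to the Hodge classes is the Jacobian part -/
  exact : ∀ m (a : U.A m), U.p a = 0 ↔ ∃ v : Fin (U.N m) → ℂ, U.j v = a
  surjective : ∀ m (h : U.Hg m), ∃ a : U.A m, U.p a = h
  finite : ∀ m, FiniteDimensional ℚ (U.Hg m)

/-- The maps commute with the correspondences. -/
structure IsCompatible : Prop where
  reg_act : ∀ {a c : ℕ} (x : X.Corr a c) (z : U.M a), U.r (U.onM x z) = U.onA x (U.r z)
  jac_act : ∀ {a c : ℕ} (x : X.Corr a c) (v : Fin (U.N a) → ℂ), U.onA x (U.j v) = U.j (U.onW x v)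
  pr_act : ∀ {a c : ℕ} (x : X.Corr a c) (z : U.A a), U.p (U.onA x z) = U.onHg x (U.p z)

/-- The correspondences act on the rational cohomology and on the Hodge classes through their
classes, and the actions are compatible with compositions. -/
structure IsAction : Prop where
  onHg_comp : ∀ {a b c : ℕ} (x : X.Corr b c) (y : X.Corr a b) (z : U.Hg a),
    U.onHg (X.comp x y) z = U.onHg x (U.onHg y z)
  onHg_diag : ∀ (a : ℕ) (z : U.Hg a), U.onHg (X.diag a) z = z
  onHg_zero : ∀ {a c : ℕ} (x : X.Corr a c), X.cl x = 0 → ∀ z : U.Hg a, U.onHg x z = 0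
  mat_comp : ∀ {a b c : ℕ} (x : X.Corr b c) (y : X.Corr a b),
    U.mat (X.comp x y) = U.mat x * U.mat y
  mat_diag : ∀ a : ℕ, U.mat (X.diag a) = 1
  mat_zero : ∀ {a c : ℕ} (x : X.Corr a c), X.cl x = 0 → U.mat x = 0

/-- The formal properties of the regulators of the varieties `X ^ m × U`. -/
structure IsRegulator : Prop where
  isExact : U.IsExact
  isCompatible : U.IsCompatible
  isAction : U.IsAction

/-- The elements of `W(m) ⊗ ℂ` whose class in `J(m)` is in the image of the regulator. -/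
def reached (m : ℕ) : Set (Fin (U.N m) → ℂ) := {v | ∃ z : U.M m, U.r z = U.j v}

/-- **The regulator of `X ^ m × U` has dense image**: the image maps onto the Hodge classes, and its
intersection with the Jacobian part `J(m)` is dense for the quotient topology, that is, its inverse
image in `W(m) ⊗ ℂ` is dense. -/
def DenseImage (m : ℕ) : Prop :=
  (∀ h : U.Hg m, ∃ z : U.M m, U.p (U.r z) = h) ∧ Dense (U.reached m)

/-- The dimension of the space of the Hodge classes modulo the image. -/
def hodgeDefect (m : ℕ) : ℕ := finrank ℚ (U.Hg m ⧸ LinearMap.range (U.pr m ∘ₗ U.reg m))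

/-- The real codimension of the real span of `reached m` in `W(m) ⊗ ℂ`, that is, of the real span of
the image of the regulator in `W(m) ⊗ ℂ / (W(m) ⊗ ℝ + F)`. -/
def jacobianDefect (m : ℕ) : ℕ :=
  finrank ℝ ((Fin (U.N m) → ℂ) ⧸ Submodule.span ℝ (U.reached m))

/-- The total defect. -/
def defect (m : ℕ) : ℕ := U.hodgeDefect m + U.jacobianDefect m

end Regulators

end

end Pool.Agent.K4H10.QR
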