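import Mathlib
import Pool.Agent.K4H10.QR.Coh
import Pool.Agent.K4H10.QR.Defs
import Pool.Agent.K4H10.QR.ChowAux

/-!
# The quantization law for the density of the regulator
-/

set_option autoImplicit false
set_option linter.unusedSectionVars false

namespace Pool.Agent.K4H10.QR

open Matrix Module Filter Topology Pool.Agent.K4H54.PL Pool.Agent.K4H10.QM

noncomputable section

universe u w

/-- A rational subspace of a complex space of functions is dense if and only if its real span is
everything. -/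
theorem dense_iff {N : ℕ} (S : Submodule ℚ (Fin N → ℂ)) :
    Dense (S : Set (Fin N → ℂ)) ↔ Submodule.span ℝ (S : Set (Fin N → ℂ)) = ⊤ := by
  constructor
  · intro h
    rw [eq_top_iff]
    intro x _
    have hcl : IsClosed ((Submodule.span ℝ (S : Set (Fin N → ℂ)) : Submodule ℝ (Fin N → ℂ)) :
        Set (Fin N → ℂ)) := Submodule.closed_of_finiteDimensional _
    have h1 : closure (S : Set (Fin N → ℂ)) ⊆ Submodule.span ℝ (S : Set (Fin N → ℂ)) :=
      closure_minimal Submodule.subset_span hcl
    exact h1 (h x)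
  · intro h x
    have hx : x ∈ Submodule.span ℝ (S : Set (Fin N → ℂ)) := by rw [h]; trivial
    induction hx using Submodule.span_induction with
    | mem x hx => exact subset_closure hx
    | zero => exact subset_closure S.zero_mem
    | add x y _ _ hx hy =>
      have h1 := map_mem_closure₂ continuous_add hx hy
        (fun a ha b hb => S.add_mem ha hb : ∀ a ∈ (S : Set (Fin N → ℂ)), ∀ b ∈
          (S : Set (Fin N → ℂ)), a + b ∈ (S : Set (Fin N → ℂ)))
      exact h1
    | smul r x _ hx =>
      have hr : r ∈ closure (Set.range ((↑) : ℚ → ℝ)) := Rat.denseRange_cast r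
      have h1 := map_mem_closure₂ (f := fun (r : ℝ) (x : Fin N → ℂ) => r • x)
        (continuous_fst.smul continuous_snd) hr hx (u := (S : Set (Fin N → ℂ))) (by
          rintro _ ⟨q, rfl⟩ b hb
          have h2 : ((q : ℝ) • b : Fin N → ℂ) = q • b := by
            funext i
            simp [Rat.smul_def]
          rw [h2]
          exact S.smul_mem q hb)
      exact h1

namespace Regulators

variable {X : ChowPowers.{u}} (U : Regulators.{u, w} X)

/-- The set `reached m` as a rational subspace. -/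
def reachedSub (m : ℕ) : Submodule ℚ (Fin (U.N m) → ℂ) :=
  (LinearMap.range (U.reg m)).comap (U.jac m)

theorem coe_reachedSub (m : ℕ) : (U.reachedSub m : Set (Fin (U.N m) → ℂ)) = U.reached m := by
  ext v
  rfl

theorem defect_eq_zero (hU : U.IsRegulator) (m : ℕ) : U.defect m = 0 ↔ U.DenseImage m := by
  have hf := hU.isExact.finite m
  unfold defect DenseImage
  rw [Nat.add_eq_zero_iff]
  refine and_congr ?_ ?_
  · unfold hodgeDefect
    rw [Module.finrank_eq_zero_iff_of_free, Submodule.Quotient.subsingleton_iff,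
      LinearMap.range_eq_top]
    rfl
  · unfold jacobianDefect
    rw [Module.finrank_eq_zero_iff_of_free, Submodule.Quotient.subsingleton_iff,
      ← coe_reachedSub]
    exact (dense_iff (U.reachedSub m)).symm


/-- The finite form of the law. -/
theorem law_fin {K : Type} [Field K] {H : ℕ → Type w} [∀ m, AddCommGroup (H m)]
    [∀ m, Module K (H m)] [∀ m, FiniteDimensional K (H m)] {b : ℕ → ℕ}
    (h : (∀ s : ℕ, ∀ᶠ m in atTop, ((s * b m : ℕ) : Cardinal) ≤ Module.rank K (H m)) ∨
      ((∀ m, FiniteDimensional K (H m)) ∧ ∃ s : ℕ,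
        Tendsto (fun m => (finrank K (H m) : ℝ) / b m) atTop (𝓝 s) ∧
        (s = 0 → ∀ m, Subsingleton (H m)))) :
    (∀ s : ℕ, ∀ᶠ m in atTop, s * b m ≤ finrank K (H m)) ∨
      ∃ s : ℕ, Tendsto (fun m => (finrank K (H m) : ℝ) / b m) atTop (𝓝 s) ∧
        (s = 0 → ∀ m, finrank K (H m) = 0) := by
  rcases h with h | ⟨-, s, h1, h2⟩
  · left
    intro s
    filter_upwards [h s] with m hm
    rw [← finrank_eq_rank] at hm
    exact_mod_cast hm
  · right
    refine ⟨s, h1, fun hs m => ?_⟩
    have := h2 hs m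
    exact Module.finrank_zero_of_subsingleton

/-- The image in the Hodge classes. -/
def imHg (m : ℕ) : Submodule ℚ (U.Hg m) := LinearMap.range (U.pr m ∘ₗ U.reg m)

theorem imHg_stable (hU : U.IsRegulator) {a c : ℕ} (x : X.Corr a c) :
    U.imHg a ≤ (U.imHg c).comap (U.actHg x) := by
  rintro _ ⟨z, rfl⟩
  refine ⟨U.actM x z, ?_⟩
  change U.pr c (U.reg c (U.actM x z)) = U.actHg x (U.pr a (U.reg a z))
  exact (congrArg (U.pr c) (hU.isCompatible.reg_act x z)).trans
    (hU.isCompatible.pr_act x (U.reg a z))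

/-- The action on the Hodge classes modulo the image. -/
def psiHg (hU : U.IsRegulator) (a c : ℕ) :
    X.Corr a c →ₗ[ℚ] ((U.Hg a ⧸ U.imHg a) →ₗ[ℚ] (U.Hg c ⧸ U.imHg c)) where
  toFun x := Submodule.mapQ _ _ (U.actHg x) (U.imHg_stable hU x)
  map_add' x y := by
    apply Submodule.linearMap_qext
    ext z
    simp
  map_smul' r x := by
    apply Submodule.linearMap_qext
    ext z
    simp

theorem hodge_law (hX : X.IsCorr) (hs : X.IsStandard) (hN : X.NumIsHom) (hU : U.IsRegulator) :
    (∀ s : ℕ, ∀ᶠ m in atTop, s * X.classDim m ≤ U.hodgeDefect m) ∨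
      ∃ s : ℕ, Tendsto (fun m => (U.hodgeDefect m : ℝ) / X.classDim m) atTop (𝓝 s) ∧
        (s = 0 → ∀ m, U.hodgeDefect m = 0) := by
  have hf := hU.isExact.finite
  refine law_fin (K := ℚ) (H := fun m => U.Hg m ⧸ U.imHg m) ?_
  simp only [classDim_eq hX]
  refine quant_coh (k := ℚ) (K := ℚ) (H := fun m => U.Hg m ⧸ U.imHg m) (pair hX hs) (rig hX hs)
    (nondeg hX hN) (fun {a c} => classL hX a c) (fun {a b c} x y => X.comp x y) X.diag
    (fun F h => h) hX.cl_comp hX.cl_diag (fun {a c} => U.psiHg hU a c) (fun {a b c} x y => ?_) (fun a => ?_)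
    (fun {a c} x hx => ?_)
  · apply Submodule.linearMap_qext
    ext z
    change Submodule.Quotient.mk (U.actHg (X.comp x y) z) =
      Submodule.Quotient.mk (U.actHg x (U.actHg y z))
    exact congrArg _ (hU.isAction.onHg_comp x y z)
  · apply Submodule.linearMap_qext
    ext z
    change Submodule.Quotient.mk (U.actHg (X.diag a) z) = Submodule.Quotient.mk z
    exact congrArg _ (hU.isAction.onHg_diag a z)
  · apply Submodule.linearMap_qext
    ext z
    change Submodule.Quotient.mk (U.actHg x z) = 0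
    have h1 : U.actHg x z = 0 := hU.isAction.onHg_zero x hx z
    rw [h1]
    rfl

/-- The real span of the elements reached by the regulator. -/
def reach (m : ℕ) : Submodule ℝ (Fin (U.N m) → ℂ) := Submodule.span ℝ (U.reached m)

/-- The action on `W ⊗ ℂ`. -/
def actC (a c : ℕ) : X.Corr a c →ₗ[ℚ] ((Fin (U.N a) → ℂ) →ₗ[ℝ] (Fin (U.N c) → ℂ)) where
  toFun x := (Matrix.mulVecLin ((U.actW x).map (algebraMap ℚ ℂ))).restrictScalars ℝ
  map_add' x y := by
    refine LinearMap.ext fun v => ?_
    change ((U.actW (x + y)).map (algebraMap ℚ ℂ)) *ᵥ v =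
      ((U.actW x).map (algebraMap ℚ ℂ)) *ᵥ v + ((U.actW y).map (algebraMap ℚ ℂ)) *ᵥ v
    rw [map_add, ← Matrix.add_mulVec]
    congr 1
    ext i j
    exact map_add (algebraMap ℚ ℂ) _ _
  map_smul' r x := by
    refine LinearMap.ext fun v => ?_
    change ((U.actW (r • x)).map (algebraMap ℚ ℂ)) *ᵥ v =
      r • (((U.actW x).map (algebraMap ℚ ℂ)) *ᵥ v)
    rw [map_smul, ← Matrix.smul_mulVec]
    congr 1
    ext i j
    change algebraMap ℚ ℂ (r * U.actW x i j) = r • algebraMap ℚ ℂ (U.actW x i j)
    rw [map_mul, Algebra.smul_def]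

theorem reach_stable (hU : U.IsRegulator) {a c : ℕ} (x : X.Corr a c) :
    U.reach a ≤ (U.reach c).comap (U.actC a c x) := by
  unfold reach
  rw [Submodule.span_le]
  rintro v ⟨z, hz⟩
  refine Submodule.subset_span ⟨U.actM x z, ?_⟩
  exact (hU.isCompatible.reg_act x z).trans ((congrArg (U.actA x) hz).trans
    (hU.isCompatible.jac_act x v))

/-- The action on `W ⊗ ℂ` modulo the real span. -/
def psiJ (hU : U.IsRegulator) (a c : ℕ) :
    X.Corr a c →ₗ[ℚ] (((Fin (U.N a) → ℂ) ⧸ U.reach a) →ₗ[ℝ] ((Fin (U.N c) → ℂ) ⧸ U.reach c)) where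
  toFun x := Submodule.mapQ _ _ (U.actC a c x) (U.reach_stable hU x)
  map_add' x y := by
    apply Submodule.linearMap_qext
    refine LinearMap.ext fun z => ?_
    change (U.reach c).mkQ (U.actC a c (x + y) z) =
      (U.reach c).mkQ (U.actC a c x z) + (U.reach c).mkQ (U.actC a c y z)
    rw [map_add (U.actC a c), LinearMap.add_apply, map_add]
  map_smul' r x := by
    apply Submodule.linearMap_qext
    refine LinearMap.ext fun z => ?_
    change (U.reach c).mkQ (U.actC a c (r • x) z) = r • (U.reach c).mkQ (U.actC a c x z)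
    rw [map_smul (U.actC a c), LinearMap.smul_apply]
    rfl

theorem jacobian_law (hX : X.IsCorr) (hs : X.IsStandard) (hN : X.NumIsHom) (hU : U.IsRegulator) :
    (∀ s : ℕ, ∀ᶠ m in atTop, s * X.classDim m ≤ U.jacobianDefect m) ∨
      ∃ s : ℕ, Tendsto (fun m => (U.jacobianDefect m : ℝ) / X.classDim m) atTop (𝓝 s) ∧
        (s = 0 → ∀ m, U.jacobianDefect m = 0) := by
  refine law_fin (K := ℝ) (H := fun m => (Fin (U.N m) → ℂ) ⧸ U.reach m) ?_
  simp only [classDim_eq hX]
  refine quant_coh (k := ℚ) (K := ℝ) (H := fun m => (Fin (U.N m) → ℂ) ⧸ U.reach m) (pair hX hs)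
    (rig hX hs) (nondeg hX hN) (fun {a c} => classL hX a c) (fun {a b c} x y => X.comp x y) X.diag
    (fun F h => h) hX.cl_comp hX.cl_diag (fun {a c} => U.psiJ hU a c) (fun {a b c} x y => ?_) (fun a => ?_)
    (fun {a c} x hx => ?_)
  · apply Submodule.linearMap_qext
    refine LinearMap.ext fun z => ?_
    change Submodule.Quotient.mk (((U.actW (X.comp x y)).map (algebraMap ℚ ℂ)) *ᵥ z) =
      Submodule.Quotient.mk (((U.actW x).map (algebraMap ℚ ℂ)) *ᵥ
        (((U.actW y).map (algebraMap ℚ ℂ)) *ᵥ z))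
    rw [show U.actW (X.comp x y) = U.actW x * U.actW y from hU.isAction.mat_comp x y,
      Matrix.map_mul, Matrix.mulVec_mulVec]
  · apply Submodule.linearMap_qext
    refine LinearMap.ext fun z => ?_
    change Submodule.Quotient.mk (((U.actW (X.diag a)).map (algebraMap ℚ ℂ)) *ᵥ z) =
      Submodule.Quotient.mk z
    rw [show U.actW (X.diag a) = 1 from hU.isAction.mat_diag a, Matrix.map_one _ (map_zero _) (map_one _), Matrix.one_mulVec]
  · apply Submodule.linearMap_qext
    refine LinearMap.ext fun z => ?_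
    change Submodule.Quotient.mk (((U.actW x).map (algebraMap ℚ ℂ)) *ᵥ z) = 0
    rw [show U.actW x = 0 from hU.isAction.mat_zero x hx]
    have h1 : ((0 : Matrix (Fin (U.N c)) (Fin (U.N a)) ℚ).map (algebraMap ℚ ℂ)) = 0 := by
      ext i j
      exact map_zero (algebraMap ℚ ℂ)
    rw [h1, Matrix.zero_mulVec]
    rfl

/-- **The quantization law for the density of the regulator.** -/
theorem law (hX : X.IsCorr) (hs : X.IsStandard) (hN : X.NumIsHom) (hU : U.IsRegulator) :
    (∀ s : ℕ, ∀ᶠ m in atTop, s * X.classDim m ≤ U.defect m) ∨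
      ∃ s : ℕ, Tendsto (fun m => (U.defect m : ℝ) / X.classDim m) atTop (𝓝 s) ∧
        (s = 0 ↔ ∀ m, U.DenseImage m) := by
  rcases U.hodge_law hX hs hN hU with h1 | ⟨s, h1, h1'⟩
  · left
    intro s
    filter_upwards [h1 s] with m hm
    exact hm.trans (Nat.le_add_right _ _)
  · rcases U.jacobian_law hX hs hN hU with h2 | ⟨t, h2, h2'⟩
    · left
      intro s
      filter_upwards [h2 s] with m hm
      exact hm.trans (Nat.le_add_left _ _)
    · right
      have h3 : Tendsto (fun m => (U.defect m : ℝ) / X.classDim m) atTop (𝓝 ((s + t : ℕ) : ℝ)) := by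
        rw [Nat.cast_add]
        refine (h1.add h2).congr fun m => ?_
        unfold defect
        rw [Nat.cast_add, add_div]
      refine ⟨s + t, h3, fun h m => ?_, fun h => ?_⟩
      · rw [← U.defect_eq_zero hU]
        unfold defect
        rw [h1' (by omega), h2' (by omega)]
      · have h4 : ∀ m, U.defect m = 0 := fun m => (U.defect_eq_zero hU m).2 (h m)
        have h5 : Tendsto (fun m => (U.defect m : ℝ) / X.classDim m) atTop (𝓝 ((0 : ℕ) : ℝ)) := by
          refine tendsto_const_nhds.congr fun m => ?_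
          rw [h4, Nat.cast_zero, zero_div]
        exact_mod_cast tendsto_nhds_unique h3 h5

theorem dense_of_frequently (hX : X.IsCorr) (hs : X.IsStandard) (hN : X.NumIsHom) (hU : U.IsRegulator) {ε : ℝ}
    (hε : 0 < ε) (h : ∃ᶠ m in atTop, (U.defect m : ℝ) ≤ (1 - ε) * X.classDim m) :
    ∀ m, U.DenseImage m := by
  have hpos : ∀ m, (0 : ℝ) < X.classDim m := fun m => by exact_mod_cast classDim_pos hX hs m
  rcases U.law hX hs hN hU with h1 | ⟨s, h1, h2⟩
  · exfalso
    obtain ⟨m, hm, hm'⟩ := (h.and_eventually (h1 1)).exists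
    rw [one_mul] at hm'
    have h4 : (X.classDim m : ℝ) ≤ U.defect m := by exact_mod_cast hm'
    nlinarith [hpos m]
  · apply h2.1
    by_contra hs
    have h4 : (1 : ℝ) ≤ s := by exact_mod_cast Nat.one_le_iff_ne_zero.2 hs
    have h5 : ∀ᶠ m in atTop, 1 - ε < (U.defect m : ℝ) / X.classDim m :=
      h1.eventually (lt_mem_nhds (by linarith))
    obtain ⟨m, hm, hm'⟩ := (h.and_eventually h5).exists
    rw [lt_div_iff₀ (hpos m)] at hm'
    linarith

end Regulators

end

end Pool.Agent.K4H10.QR
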